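import Pool.Agent.H31.UF.Targets

/-!
# [CBU] The cubes and the recursive definition
-/

set_option autoImplicit false

open Finset Filter Topology

namespace Pool.Agent.H11.UF

open Pool.Agent.H91.LF
open Pool.Agent.H31.UF
open Pool.Agent.H31.DP (Uc)

open Classical in
/-- The function `g` on `A`, zero outside. -/
noncomputable def gi (A : Finset ℤ) (g : ℤ → ℝ) (n : ℤ) : ℝ := if n ∈ A then g n else 0

/-- The vertices of a cube of one more dimension. -/
theorem prod_vx {k : ℕ} (f : ℤ → ℝ) (t : ℤ) (z : Fin (k + 1) → ℤ) :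
    ∏ s, f (vx (Fin.cons (z 0) (Fin.cons t (Fin.tail z)) : Fin (k + 2) → ℤ) s) =
      ∏ s, (f (vx z s) * f (vx z s + t)) := by
  classical
  have h1 : ∀ s : Finset (Fin k),
      vx (Fin.cons (z 0) (Fin.cons t (Fin.tail z)) : Fin (k + 2) → ℤ)
        (s.map (Fin.succEmb k)) = vx z s := by
    intro s
    unfold vx
    rw [Finset.sum_map]
    simp [Fin.tail]
  have h2 : ∀ s : Finset (Fin k),
      vx (Fin.cons (z 0) (Fin.cons t (Fin.tail z)) : Fin (k + 2) → ℤ)
        (insert 0 (s.map (Fin.succEmb k))) = vx z s + t := by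
    intro s
    unfold vx
    rw [Finset.sum_insert (by simp), Finset.sum_map]
    simp [Fin.tail]
    ring
  rw [Finset.prod_mul_distrib]
  have h3 : (Finset.univ : Finset (Finset (Fin (k + 1)))) =
      (Finset.univ.image (fun s : Finset (Fin k) => s.map (Fin.succEmb k))) ∪
        (Finset.univ.image (fun s : Finset (Fin k) => insert 0 (s.map (Fin.succEmb k)))) := by
    ext u
    simp only [Finset.mem_univ, true_iff, Finset.mem_union, Finset.mem_image, true_and]
    by_cases h0 : (0 : Fin (k + 1)) ∈ u
    · right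
      refine ⟨Finset.univ.filter (fun i : Fin k => i.succ ∈ u), ?_⟩
      ext i
      refine Fin.cases ?_ (fun j => ?_) i
      · simp [h0]
      · simp
    · left
      refine ⟨Finset.univ.filter (fun i : Fin k => i.succ ∈ u), ?_⟩
      ext i
      refine Fin.cases ?_ (fun j => ?_) i
      · simp [h0]
      · simp
  have h4 : Disjoint (Finset.univ.image (fun s : Finset (Fin k) => s.map (Fin.succEmb k)))
      (Finset.univ.image (fun s : Finset (Fin k) => insert 0 (s.map (Fin.succEmb k)))) := by
    rw [Finset.disjoint_left]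
    intro u hu hu'
    simp only [Finset.mem_image, Finset.mem_univ, true_and] at hu hu'
    obtain ⟨s, rfl⟩ := hu
    obtain ⟨s', hs'⟩ := hu'
    have h5 : (0 : Fin (k + 1)) ∈ s.map (Fin.succEmb k) := by
      rw [← hs']
      exact Finset.mem_insert_self _ _
    simp at h5
  rw [h3, Finset.prod_union h4, Finset.prod_image, Finset.prod_image]
  · congr 1
    · exact Finset.prod_congr rfl (fun s _ => by rw [h1])
    · exact Finset.prod_congr rfl (fun s _ => by rw [h2])
  · intro s _ s' _ h
    have h5 : s.map (Fin.succEmb k) = s'.map (Fin.succEmb k) := by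
      have e1 : (insert 0 (s.map (Fin.succEmb k))).erase 0 = s.map (Fin.succEmb k) :=
        Finset.erase_insert (by simp)
      have e2 : (insert 0 (s'.map (Fin.succEmb k))).erase 0 = s'.map (Fin.succEmb k) :=
        Finset.erase_insert (by simp)
      have h' : insert 0 (s.map (Fin.succEmb k)) = insert 0 (s'.map (Fin.succEmb k)) := h
      rw [← e1, ← e2, h']
    exact Finset.map_injective _ h5
  · intro s _ s' _ h
    exact Finset.map_injective _ h

/-- The sums over the cubes, in the recursive and in the direct form. -/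
theorem Uc_eq (X : ℕ) : ∀ (k : ℕ) (A : Finset ℤ) (g : ℤ → ℝ),
    A ⊆ Finset.Icc (-(X : ℤ)) X →
    Uc X k A (fun n => ((g n : ℝ) : ℂ)) =
      ((∑ z ∈ Fintype.piFinset (fun _ : Fin (k + 1) => Finset.Icc (-(X : ℤ)) X),
        ∏ s, gi A g (vx z s) : ℝ) : ℂ) := by
  classical
  intro k
  induction k with
  | zero =>
    intro A g hA
    have h1 : ∑ z ∈ Fintype.piFinset (fun _ : Fin (0 + 1) => Finset.Icc (-(X : ℤ)) X),
        ∏ s, gi A g (vx z s) = ∑ n ∈ Finset.Icc (-(X : ℤ)) X, gi A g n := by
      refine Finset.sum_nbij' (fun z => z 0) (fun n _ => n) ?_ ?_ ?_ ?_ ?_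
      · intro z hz
        rw [Fintype.mem_piFinset] at hz
        exact hz 0
      · intro n hn
        rw [Fintype.mem_piFinset]
        exact fun _ => hn
      · intro z _
        funext i
        refine Fin.cases ?_ (fun j => j.elim0) i
        rfl
      · intro n _
        rfl
      · intro z _
        rw [Fintype.prod_unique]
        congr 1
        have h0 : (default : Finset (Fin 0)) = ∅ := Subsingleton.elim _ _
        rw [h0]
        simp [vx]
    rw [h1]
    have h2 : ∑ n ∈ Finset.Icc (-(X : ℤ)) X, gi A g n = ∑ n ∈ A, g n := by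
      unfold gi
      rw [← Finset.sum_filter]
      refine Finset.sum_congr ?_ (fun _ _ => rfl)
      ext n
      rw [Finset.mem_filter]
      exact ⟨fun h => h.2, fun h => ⟨hA h, h⟩⟩
    rw [h2]
    show ∑ p ∈ A, ((g p : ℝ) : ℂ) = _
    push_cast
    rfl
  | succ k ih =>
    intro A g hA
    show ∑ t ∈ Finset.Icc (-(X : ℤ)) X, Uc X k (A.filter (fun p => p + t ∈ A))
      (fun p => ((g p : ℝ) : ℂ) * (starRingEnd ℂ) ((g (p + t) : ℝ) : ℂ)) = _
    have h1 : ∀ t : ℤ, Uc X k (A.filter (fun p => p + t ∈ A))
        (fun p => ((g p : ℝ) : ℂ) * (starRingEnd ℂ) ((g (p + t) : ℝ) : ℂ)) =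
        ((∑ z ∈ Fintype.piFinset (fun _ : Fin (k + 1) => Finset.Icc (-(X : ℤ)) X),
          ∏ s, (gi A g (vx z s) * gi A g (vx z s + t)) : ℝ) : ℂ) := by
      intro t
      have h2 : (fun p => ((g p : ℝ) : ℂ) * (starRingEnd ℂ) ((g (p + t) : ℝ) : ℂ)) =
          (fun p => (((fun n => g n * g (n + t)) p : ℝ) : ℂ)) := by
        funext p
        simp
      rw [h2, ih _ _ ((Finset.filter_subset _ _).trans hA)]
      congr 1
      refine Finset.sum_congr rfl (fun z _ => Finset.prod_congr rfl (fun s _ => ?_))
      unfold gi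
      by_cases ha : vx z s ∈ A
      · by_cases hb : vx z s + t ∈ A
        · simp [ha, hb]
        · simp [ha, hb]
      · simp [ha]
    rw [Finset.sum_congr rfl (fun t _ => h1 t), ← Complex.ofReal_sum]
    congr 1
    rw [← Finset.sum_product']
    refine Finset.sum_nbij'
      (fun x : ℤ × (Fin (k + 1) → ℤ) =>
        (Fin.cons (x.2 0) (Fin.cons x.1 (Fin.tail x.2)) : Fin (k + 2) → ℤ))
      (fun z : Fin (k + 2) → ℤ =>
        (z 1, (Fin.cons (z 0) (Fin.tail (Fin.tail z)) : Fin (k + 1) → ℤ))) ?_ ?_ ?_ ?_ ?_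
    · rintro ⟨t, z⟩ hx
      rw [Finset.mem_product, Fintype.mem_piFinset] at hx
      rw [Fintype.mem_piFinset]
      intro i
      refine Fin.cases ?_ (fun j => ?_) i
      · exact hx.2 0
      · refine Fin.cases ?_ (fun l => ?_) j
        · exact hx.1
        · exact hx.2 l.succ
    · intro z hz
      rw [Fintype.mem_piFinset] at hz
      rw [Finset.mem_product, Fintype.mem_piFinset]
      refine ⟨hz 1, fun i => ?_⟩
      refine Fin.cases ?_ (fun j => ?_) i
      · exact hz 0
      · exact hz j.succ.succ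
    · rintro ⟨t, z⟩ _
      refine Prod.ext ?_ ?_
      · rfl
      · funext i
        refine Fin.cases ?_ (fun j => ?_) i
        · rfl
        · rfl
    · intro z _
      funext i
      refine Fin.cases ?_ (fun j => ?_) i
      · rfl
      · refine Fin.cases ?_ (fun l => ?_) j
        · rfl
        · rfl
    · rintro ⟨t, z⟩ _
      exact (prod_vx (gi A g) t z).symm

theorem pf_CBU : T_CBU := by
  classical
  intro k N g
  rw [Uc_eq N k _ g ?_, Complex.ofReal_re]
  · unfold CB
    rw [Finset.sum_filter]
    refine Finset.sum_congr rfl (fun z _ => ?_)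
    split_ifs with h
    · refine Finset.prod_congr rfl (fun s _ => ?_)
      unfold gi
      rw [if_pos (Finset.mem_Icc.2 (h s))]
    · push Not at h
      obtain ⟨s, hs⟩ := h
      refine Finset.prod_eq_zero (Finset.mem_univ s) ?_
      unfold gi
      rw [if_neg]
      intro hm
      rw [Finset.mem_Icc] at hm
      exact absurd (hs hm.1) (not_lt.2 hm.2)
  · intro n hn
    rw [Finset.mem_Icc] at hn ⊢
    have h0 : (0 : ℤ) ≤ N := Int.natCast_nonneg N
    omega

end Pool.Agent.H11.UF
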